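import Pool.Agent.Helper53.CTG.Goals

/-!
# Project CTG: packet FI6 (the invariant in mode 6)
-/

set_option autoImplicit false

namespace Pool.Agent.Helper41.CTG

open Pool.Agent.Helper53.CTG
open Pool.Agent.Helper1.TE (Gad app cif NumMach codeB word)
open Pool.Agent.Helper65.LinSpace (dig tab nrec ifz eq01 le01 lt01 capPow)

theorem codeB_sub (w : List Bool) (n : ℕ) : codeB w[n]? - 1 = (w.getD n false).toNat := by
  rw [List.getD_eq_getElem?_getD]
  cases w[n]? with
  | none => rfl
  | some a =>
    change 1 + a.toNat - 1 = a.toNat
    omega

theorem word_succ (w : List Bool) (k i j : ℕ) :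
    word (w.drop k) i (j + 1) = 2 * word (w.drop k) i j + (codeB w[k + i + j]? - 1) := by
  rw [word, codeB_sub, List.getD_eq_getElem?_getD, List.getD_eq_getElem?_getD,
    List.getElem?_drop, add_assoc k i j]

theorem cif_zero {β : Type} {c : ℕ} (h : c = 0) (x y : β) : cif c x y = x := if_pos h

theorem cif_ne {β : Type} {c : ℕ} (h : c ≠ 0) (x y : β) : cif c x y = y := if_neg h

theorem nx_eq (ok : ℕ → ℕ → ℕ → ℕ → ℕ) (tst : ℕ → ℕ) (mal : ℕ) (w : List Bool)
    (N q b c u W τ g t : ℕ) (D : De) (X S A γ : ℕ) :
    (machM ok tst mal).nx w (mainS N q b c u W τ g t D X S A) γ =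
      cif (γ * (1 - gqM (mainS N q b c u W τ g t D X S A)))
      (cif (Nt N q - u)
        (cif (Nt N q + 3 * b - u)
          (cif (Nt N q + 4 * b - u)
            (cif (bigT tst b c W D g t X A) rejS
              (cif ((τ + 1) / 13 ^ Nt N q)
                (mainS N q b c 0 W (τ + 1) 0 0 (root N q)
                  (bigX N q b c W D g t X S A)
                  (bigS N q b c W D t X S A)
                  (bigA c W D t A))
                accS))
            (mainS N q b c (u + 1) W τ g
              (2 * t + (codeB w[N + q + b + c + 4 + blkM b c W D A g * b +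
                (u - (Nt N q + 3 * b))]? - 1)) D X S A))
          (mainS N q b c (u + 1) W τ (2 * g + γ) t D X S A))
        (mainS N q b c (u + 1) W τ g t
          (sub q D (Nt N q - 1 - u) (dig 13 τ (Nt N q - 1 - u))) X S A))
      rejS := rfl

theorem gFI6 : GoalFI6 := by
  intro _ hStep hAcc ok tst mal w x γ hγ hI hmo
  cases hI with
  | rej => exact absurd hmo (by decide)
  | m0 N h1 => exact absurd hmo (by change ¬ (0 = 6); decide)
  | m1 N q h1 => exact absurd hmo (by change ¬ (1 = 6); decide)
  | m2 N q b h1 => exact absurd hmo (by change ¬ (2 = 6); decide)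
  | m3 N q b c h1 => exact absurd hmo (by change ¬ (3 = 6); decide)
  | m4 N q b c u h1 hu h2 => exact absurd hmo (by change ¬ (4 = 6); decide)
  | m5 N q b c u h1 hu => exact absurd hmo (by change ¬ (5 = 6); decide)
  | m7 h1 => exact absurd hmo (by decide)
  | m6 N q b c u τ g t D X S A h1 hτ hu hg hD ht hX hS hC =>
    rw [nx_eq]
    by_cases hγ0 : γ * (1 - gqM (mainS N q b c u (2 ^ Et N q b c) τ g t D X S A)) = 0
    · rw [cif_zero hγ0]
      by_cases hu1 : Nt N q - u = 0
      · rw [cif_zero hu1]
        by_cases hu2 : Nt N q + 3 * b - u = 0
        · rw [cif_zero hu2]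
          by_cases hu3 : Nt N q + 4 * b - u = 0
          · -- a step of the algorithm
            rw [cif_zero hu3]
            have hu' : u = Nt N q + 4 * b := by omega
            subst hu'
            have hg' : g < 8 ^ b := by
              rw [min_eq_right (by omega), pow_mul] at hg
              exact hg
            have hD' : D = dec q (root N q) (Nt N q) τ (Nt N q) := by
              rw [min_eq_right (by omega)] at hD
              exact hD
            have ht' : t = word (dat w N q b c) (blkM b c (2 ^ Et N q b c) D A g * b) b := by
              rw [show Nt N q + 4 * b - (Nt N q + 3 * b) = b by omega] at ht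
              exact ht
            obtain ⟨-, hs2⟩ := hStep ok tst w N q b c τ g X S A h1 hτ hg' hX hS hC D t hD' ht'
            by_cases hbT : bigT tst b c (2 ^ Et N q b c) D g t X A = 0
            · rw [cif_zero hbT]
              exact Inv.rej
            · rw [cif_ne hbT]
              obtain ⟨s', -, hC', hlt⟩ := hs2 hbT
              by_cases hq : (τ + 1) / 13 ^ Nt N q = 0
              · rw [cif_zero hq]
                have hq' : τ + 1 < 13 ^ Nt N q := by
                  rcases Nat.div_eq_zero_iff.1 hq with h0 | h0
                  · exact absurd h0 (by positivity)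
                  · exact h0
                obtain ⟨hs, hX', hS'⟩ := hlt hq'
                rw [hs] at hC'
                refine Inv.m6 N q b c 0 (τ + 1) 0 0 _ _ _ _ h1 hq' (by omega) (by positivity)
                  ?_ ?_ hX' hS' hC'
                · rw [Nat.zero_min]
                  rfl
                · rw [Nat.zero_sub]
                  rfl
              · rw [cif_ne hq]
                have hq' : τ + 1 = 13 ^ Nt N q := by
                  have h2 : ¬ (τ + 1 < 13 ^ Nt N q) := fun h3 => hq (Nat.div_eq_of_lt h3)
                  omega
                rw [hq'] at hC'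
                exact Inv.m7 (Or.inl ⟨N, q, b, c, h1,
                  (hAcc tst w N q b c h1.1.2.2.1 h1.1.2.2.2.1 h1.1.2.2.2.2.1
                    h1.1.2.2.2.2.2.1).1.1 ⟨s', hC'⟩⟩)
          · -- reading a letter
            rw [cif_ne hu3]
            refine Inv.m6 N q b c (u + 1) τ g _ D X S A h1 hτ (by omega) ?_ ?_ ?_ hX hS hC
            · rw [min_eq_right (by omega)] at hg ⊢
              exact hg
            · rw [min_eq_right (by omega)] at hD ⊢
              exact hD
            · rw [show u + 1 - (Nt N q + 3 * b) = (u - (Nt N q + 3 * b)) + 1 by omega, dat,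
                word_succ, ← dat, ← ht]
        · -- guessing a bit
          rw [cif_ne hu2]
          refine Inv.m6 N q b c (u + 1) τ (2 * g + γ) t D X S A h1 hτ (by omega) ?_ ?_ ?_ hX hS hC
          · rw [min_eq_left (by omega)] at hg ⊢
            rw [show u + 1 - Nt N q = (u - Nt N q) + 1 by omega, pow_succ]
            omega
          · rw [min_eq_right (by omega)] at hD ⊢
            exact hD
          · rw [show u + 1 - (Nt N q + 3 * b) = 0 by omega]
            rw [show u - (Nt N q + 3 * b) = 0 by omega] at ht
            rw [ht]
            rfl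
      · -- one more digit
        rw [cif_ne hu1]
        refine Inv.m6 N q b c (u + 1) τ g t _ X S A h1 hτ (by omega) ?_ ?_ ?_ hX hS hC
        · rw [show u + 1 - Nt N q = u - Nt N q by omega]
          exact hg
        · rw [min_eq_left (by omega)] at hD ⊢
          rw [hD]
          rfl
        · rw [show u + 1 - (Nt N q + 3 * b) = 0 by omega]
          rw [show u - (Nt N q + 3 * b) = 0 by omega] at ht
          rw [ht]
          rfl
    · rw [cif_ne hγ0]
      exact Inv.rej

end Pool.Agent.Helper41.CTG
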